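import Pool.Agent.K3h34.HP.Stm
import Pool.Agent.R410.LW.Main

/-! Brick OBS2 of project HP (helper34): points of the cover with two different roots. -/

set_option autoImplicit false
set_option linter.all false

namespace Pool.Agent.K3h79.HP

open Polynomial NumberField
open Pool.Agent.Y214.HB (toK)
open Pool.Agent.K3h34.HP
open Pool.Agent.R410.LW (FG Landau landau ft_int)

theorem fg_frac (A M : Type) [CommRing A] [IsDomain A] [Field M] [Algebra.FiniteType ℤ A]
    [Algebra A M] [IsFractionRing A M] : FG M := by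
  classical
  obtain ⟨S, hS⟩ := (inferInstance : Algebra.FiniteType ℤ A).out
  refine ⟨S.image (algebraMap A M), ?_⟩
  rw [eq_top_iff]
  intro z _
  have h : ∀ a : A, algebraMap A M a ∈
      Subfield.closure ((S.image (algebraMap A M) : Finset M) : Set M) := by
    intro a
    have ha : a ∈ Algebra.adjoin ℤ (S : Set A) := by
      rw [hS]
      trivial
    induction ha using Algebra.adjoin_induction with
    | mem s hs =>
      refine Subfield.subset_closure ?_
      rw [Finset.coe_image]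
      exact ⟨s, hs, rfl⟩
    | algebraMap c =>
      rw [eq_intCast, map_intCast]
      exact intCast_mem _ c
    | add x y _ _ hx hy =>
      rw [map_add]
      exact add_mem hx hy
    | mul x y _ _ hx hy =>
      rw [map_mul]
      exact mul_mem hx hy
  obtain ⟨x, y, _, rfl⟩ := IsFractionRing.div_surjective (A := A) z
  exact div_mem (h x) (h y)

theorem trdeg_frac {n : ℕ} (A M : Type) [CommRing A] [IsDomain A] [Field M] [CharZero M]
    [Algebra A M] [IsFractionRing A M] (ι : MvPolynomial (Fin (n + 1)) ℤ →+* A)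
    (hι : Function.Injective ι)
    (hal : ∀ a : A, ∃ f : (MvPolynomial (Fin (n + 1)) ℤ)[X], f ≠ 0 ∧ f.eval₂ ι a = 0) :
    Algebra.trdeg ℚ M = (n + 1 : ℕ) := by
  letI : Algebra (MvPolynomial (Fin (n + 1)) ℤ) A := ι.toAlgebra
  letI : Algebra (MvPolynomial (Fin (n + 1)) ℤ) M := ((algebraMap A M).comp ι).toAlgebra
  haveI : IsScalarTower (MvPolynomial (Fin (n + 1)) ℤ) A M :=
    IsScalarTower.of_algebraMap_eq fun _ => rfl
  haveI h0 : Algebra.IsAlgebraic (MvPolynomial (Fin (n + 1)) ℤ) A := ⟨fun a => by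
    obtain ⟨f, hf, hfa⟩ := hal a
    exact ⟨f, hf, hfa⟩⟩
  haveI h1 : Algebra.IsAlgebraic A M := ⟨fun z => by
    obtain ⟨x, y, hy, rfl⟩ := IsFractionRing.div_surjective (A := A) z
    have hy0 : y ≠ 0 := nonZeroDivisors.ne_zero hy
    refine ⟨C y * X - C x, ?_, ?_⟩
    · intro h
      have := congrArg (fun q => q.coeff 1) h
      simp at this
      exact hy0 this
    · have h2 : algebraMap A M y ≠ 0 :=
        (map_ne_zero_iff _ (IsFractionRing.injective A M)).2 hy0
      simp only [map_sub, map_mul, aeval_C, aeval_X]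
      field_simp
      ring⟩
  haveI : FaithfulSMul (MvPolynomial (Fin (n + 1)) ℤ) A :=
    (faithfulSMul_iff_algebraMap_injective _ _).2 hι
  haveI : FaithfulSMul A M :=
    (faithfulSMul_iff_algebraMap_injective _ _).2 (IsFractionRing.injective A M)
  haveI : FaithfulSMul (MvPolynomial (Fin (n + 1)) ℤ) M :=
    (faithfulSMul_iff_algebraMap_injective _ _).2 ((IsFractionRing.injective A M).comp hι)
  haveI h2 : Algebra.IsAlgebraic (MvPolynomial (Fin (n + 1)) ℤ) M :=
    Algebra.IsAlgebraic.trans (MvPolynomial (Fin (n + 1)) ℤ) A M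
  have h3 := trdeg_add_eq ℤ (MvPolynomial (Fin (n + 1)) ℤ) (A := M)
  have h4 := trdeg_add_eq ℤ ℚ (A := M)
  have h5 : Algebra.trdeg (MvPolynomial (Fin (n + 1)) ℤ) M = 0 := trdeg_eq_zero
  haveI : Algebra.IsAlgebraic ℤ ℚ := IsLocalization.isAlgebraic ℚ (nonZeroDivisors ℤ)
  have h6 : Algebra.trdeg ℤ ℚ = 0 := trdeg_eq_zero
  rw [h6, zero_add] at h4
  rw [h4, ← h3, h5, add_zero, MvPolynomial.trdeg_of_isDomain]
  simp

theorem core {n : ℕ} (P : (MvPolynomial (Fin (n + 1)) ℤ)[X]) (hP : P ≠ 0) (Ω : Type) [Field Ω]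
    [CharZero Ω] (j : MvPolynomial (Fin (n + 1)) ℤ →+* Ω) (hj : Function.Injective j)
    (θ θ' : Ω) (hne : θ ≠ θ') (h1 : P.eval₂ j θ = 0) (h2 : P.eval₂ j θ' = 0) :
    ∃ (L : Type) (_ : Field L) (_ : NumberField L) (C : ℝ), ∀ p : ℕ, p.Prime → C < p →
      Nat.card (𝓞 L →+* ZMod p) * (p : ℝ) ^ (n + 1) * √(p : ℝ) ≤
        ((Prs P p).ncard : ℝ) * √(p : ℝ) + C * (p : ℝ) ^ (n + 1) := by
  classical
  set S : Finset Ω := Finset.univ.image (fun i : Fin (n + 1) => j (MvPolynomial.X i)) ∪ {θ, θ'}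
    with hS
  let A : Subalgebra ℤ Ω := Algebra.adjoin ℤ (S : Set Ω)
  have hx : ∀ i, j (MvPolynomial.X i) ∈ A := fun i => Algebra.subset_adjoin (by
    rw [hS]; simp)
  have hθ : θ ∈ A := Algebra.subset_adjoin (by rw [hS]; simp)
  have hθ' : θ' ∈ A := Algebra.subset_adjoin (by rw [hS]; simp)
  have hft : @Algebra.FiniteType ℤ A _ _ (Ring.toIntAlgebra A) :=
    ft_int _ ((Subalgebra.fg_iff_finiteType _).1 ⟨S, rfl⟩)
  let ι : MvPolynomial (Fin (n + 1)) ℤ →+* A :=
    (MvPolynomial.aeval (R := ℤ) (fun i => (⟨j (MvPolynomial.X i), hx i⟩ : A))).toRingHom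
  have hιX : ∀ i, ι (MvPolynomial.X i) = ⟨j (MvPolynomial.X i), hx i⟩ := fun i =>
    MvPolynomial.aeval_X _ i
  have hval : (A.val : A →+* Ω).comp ι = j := by
    apply MvPolynomial.ringHom_ext
    · intro z
      simp
    · intro i
      rw [RingHom.comp_apply, hιX]
      rfl
  have hval' : ∀ r, ((ι r : A) : Ω) = j r := fun r => RingHom.congr_fun hval r
  have hιinj : Function.Injective ι := by
    intro x y h
    apply hj
    rw [← hval', ← hval', h]
  have hev : ∀ (f : (MvPolynomial (Fin (n + 1)) ℤ)[X]) (a : A), f.eval₂ j (a : Ω) = 0 →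
      f.eval₂ ι a = 0 := by
    intro f a h
    apply Subtype.ext
    have h3 := Polynomial.hom_eval₂ f ι (A.val : A →+* Ω) a
    rw [hval] at h3
    show (A.val : A →+* Ω) (f.eval₂ ι a) = _
    rw [h3]
    exact h
  have hal : ∀ a : A, ∃ f : (MvPolynomial (Fin (n + 1)) ℤ)[X], f ≠ 0 ∧ f.eval₂ ι a = 0 := by
    letI : Algebra (MvPolynomial (Fin (n + 1)) ℤ) Ω := j.toAlgebra
    intro a
    have key : ∀ z : Ω, z ∈ Algebra.adjoin ℤ (S : Set Ω) →
        IsAlgebraic (MvPolynomial (Fin (n + 1)) ℤ) z := by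
      intro z ha
      induction ha using Algebra.adjoin_induction with
      | mem s hs =>
        rw [hS, Finset.coe_union, Finset.coe_image, Finset.coe_insert, Finset.coe_singleton] at hs
        rcases hs with ⟨i, _, rfl⟩ | rfl | rfl
        · exact isAlgebraic_algebraMap (R := MvPolynomial (Fin (n + 1)) ℤ) (A := Ω)
            (MvPolynomial.X i)
        · exact ⟨P, hP, h1⟩
        · exact ⟨P, hP, h2⟩
      | algebraMap c =>
        have : (algebraMap ℤ Ω c) = algebraMap (MvPolynomial (Fin (n + 1)) ℤ) Ω (c : MvPolynomial (Fin (n + 1)) ℤ) := by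
          simp
        rw [this]
        exact isAlgebraic_algebraMap _
      | add x y _ _ hx hy => exact hx.add hy
      | mul x y _ _ hx hy => exact hx.mul hy
    obtain ⟨f, hf, hfa⟩ := key a a.2
    exact ⟨f, hf, hev f a hfa⟩
  let M := FractionRing A
  haveI hcA : CharZero A := RingHom.charZero (A.val : A →+* Ω)
  haveI hcM : CharZero M := charZero_of_injective_algebraMap (IsFractionRing.injective A M)
  obtain ⟨L, iL, iN, hL⟩ := landau (n + 1) M (@fg_frac A M _ _ _ hft _ _) (trdeg_frac A M ι hιinj hal)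
  obtain ⟨s, hs0, hs⟩ := @hL A _ _ hft _ _
  let a1 : A := ⟨θ, hθ⟩
  let a2 : A := ⟨θ', hθ'⟩
  have ha12 : a1 - a2 ≠ 0 := by
    intro h
    apply hne
    exact congrArg Subtype.val (sub_eq_zero.1 h)
  obtain ⟨C, N, hC, hN, g⟩ := hs (s * (a1 - a2)) (mul_ne_zero hs0 ha12) (dvd_mul_right _ _)
  refine ⟨L, iL, iN, max C N, fun p hp hCp => ?_⟩
  haveI : Fact p.Prime := ⟨hp⟩
  have hk : ((N : ℕ) : ZMod p) ≠ 0 := by
    rw [ne_eq, ZMod.natCast_eq_zero_iff]
    intro hd
    have h3 := Nat.le_of_dvd (Nat.pos_of_ne_zero hN) hd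
    have h4 : (N : ℝ) < p := lt_of_le_of_lt (le_max_right _ _) hCp
    have h5 : (p : ℝ) ≤ N := by exact_mod_cast h3
    linarith
  have g1 := g (ZMod p) hk
  rw [Nat.card_zmod] at g1
  have hle : Nat.card {φ : A →+* ZMod p // φ (s * (a1 - a2)) ≠ 0} ≤ (Prs P p).ncard := by
    have hcomp : ∀ φ : A →+* ZMod p,
        φ.comp ι = evP p (fun i => φ ⟨j (MvPolynomial.X i), hx i⟩) := by
      intro φ
      apply MvPolynomial.ringHom_ext
      · intro z
        simp
      · intro i
        rw [RingHom.comp_apply, hιX]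
        simp [evP]
    have hroot : ∀ (φ : A →+* ZMod p) (a : A), P.eval₂ j (a : Ω) = 0 →
        (P.map (evP p (fun i => φ ⟨j (MvPolynomial.X i), hx i⟩))).eval (φ a) = 0 := by
      intro φ a ha
      rw [eval_map, ← hcomp, ← Polynomial.hom_eval₂, hev P a ha, map_zero]
    let F : {φ : A →+* ZMod p // φ (s * (a1 - a2)) ≠ 0} → Prs P p := fun φ =>
      ⟨(fun i => φ.1 ⟨j (MvPolynomial.X i), hx i⟩, (φ.1 a1, φ.1 a2)), by
        refine ⟨?_, hroot φ.1 a1 h1, hroot φ.1 a2 h2⟩
        intro h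
        apply φ.2
        have h' : φ.1 a1 = φ.1 a2 := h
        rw [map_mul, map_sub, h', sub_self, mul_zero]⟩
    have hF : Function.Injective F := by
      intro φ ψ h
      have h3 := congrArg (fun z : Prs P p => z.1) h
      have e1 : (fun i => φ.1 ⟨j (MvPolynomial.X i), hx i⟩) =
          fun i => ψ.1 ⟨j (MvPolynomial.X i), hx i⟩ := congrArg Prod.fst h3
      have e2 : φ.1 a1 = ψ.1 a1 := congrArg (fun z => z.2.1) h3
      have e3 : φ.1 a2 = ψ.1 a2 := congrArg (fun z => z.2.2) h3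
      apply Subtype.ext
      have h4 : φ.1.toIntAlgHom = ψ.1.toIntAlgHom := by
        apply AlgHom.ext_of_adjoin_eq_top
          (Algebra.adjoin_adjoin_coe_preimage (R := ℤ) (s := (S : Set Ω)))
        rintro ⟨z, hz⟩ hzS
        have hzS' : z ∈ (S : Set Ω) := hzS
        show φ.1 ⟨z, hz⟩ = ψ.1 ⟨z, hz⟩
        rw [hS, Finset.coe_union, Finset.coe_image, Finset.coe_insert,
          Finset.coe_singleton] at hzS'
        rcases hzS' with ⟨i, _, rfl⟩ | rfl | rfl
        · exact congrFun e1 i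
        · exact e2
        · exact e3
      refine RingHom.ext fun z => ?_
      exact congrArg (fun (q : A →ₐ[ℤ] ZMod p) => q z) h4
    have h5 : Finite (Prs P p) := Set.Finite.to_subtype (Set.toFinite _)
    have h6 := Nat.card_le_card_of_injective F hF
    exact h6
  have hle' : (Nat.card {φ : A →+* ZMod p // φ (s * (a1 - a2)) ≠ 0} : ℝ) ≤ ((Prs P p).ncard : ℝ) := by
    exact_mod_cast hle
  have hp0 : (0 : ℝ) ≤ (p : ℝ) ^ (n + 1) := by positivity
  have hs' : 0 ≤ √(p : ℝ) := Real.sqrt_nonneg _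
  have h7 : Nat.card (𝓞 L →+* ZMod p) * (p : ℝ) ^ (n + 1) -
      (Nat.card {φ : A →+* ZMod p // φ (s * (a1 - a2)) ≠ 0} : ℝ) ≤
      |(Nat.card {φ : A →+* ZMod p // φ (s * (a1 - a2)) ≠ 0} : ℝ) -
        Nat.card (𝓞 L →+* ZMod p) * (p : ℝ) ^ (n + 1)| := by
    rw [abs_sub_comm]
    exact le_abs_self _
  have h8 := mul_le_mul_of_nonneg_right h7 hs'
  have h9 := mul_le_mul_of_nonneg_right hle' hs'
  have h10 : C * (p : ℝ) ^ (n + 1) ≤ max C N * (p : ℝ) ^ (n + 1) :=
    mul_le_mul_of_nonneg_right (le_max_left _ _) hp0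
  nlinarith [h8, h9, h10, g1]

theorem t_OBS2 : S_OBS2 := by
  intro n P hm hd hirr
  classical
  have hinjK : Function.Injective (algebraMap (MvPolynomial (Fin (n + 1)) ℤ)
      (FractionRing (MvPolynomial (Fin (n + 1)) ℤ))) := IsFractionRing.injective _ _
  haveI hcK : CharZero (FractionRing (MvPolynomial (Fin (n + 1)) ℤ)) :=
    charZero_of_injective_algebraMap hinjK
  have hinjΩ : Function.Injective (algebraMap (FractionRing (MvPolynomial (Fin (n + 1)) ℤ))
      (AlgebraicClosure (FractionRing (MvPolynomial (Fin (n + 1)) ℤ)))) :=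
    FaithfulSMul.algebraMap_injective _ _
  haveI hcΩ : CharZero (AlgebraicClosure (FractionRing (MvPolynomial (Fin (n + 1)) ℤ))) :=
    charZero_of_injective_algebraMap hinjΩ
  have hsep : (toK P).Separable := hirr.separable
  have hcard := card_rootSet_eq_natDegree (K := AlgebraicClosure (FractionRing (MvPolynomial (Fin (n + 1)) ℤ))) hsep
    (IsAlgClosed.splits _)
  have hdeg : (toK P).natDegree = P.natDegree := hm.natDegree_map _
  rw [hdeg] at hcard
  have h2 : 1 < Fintype.card ((toK P).rootSet (AlgebraicClosure (FractionRing (MvPolynomial (Fin (n + 1)) ℤ)))) := by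
    omega
  obtain ⟨⟨θ, hθ⟩, ⟨θ', hθ'⟩, hne⟩ := Fintype.one_lt_card_iff.1 h2
  have hr : ∀ z ∈ (toK P).rootSet (AlgebraicClosure (FractionRing (MvPolynomial (Fin (n + 1)) ℤ))),
      P.eval₂ ((algebraMap (FractionRing (MvPolynomial (Fin (n + 1)) ℤ))
        (AlgebraicClosure (FractionRing (MvPolynomial (Fin (n + 1)) ℤ)))).comp
          (algebraMap (MvPolynomial (Fin (n + 1)) ℤ)
            (FractionRing (MvPolynomial (Fin (n + 1)) ℤ)))) z = 0 := by
    intro z hz
    have h3 := (mem_rootSet.1 hz).2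
    rw [aeval_def, toK, eval₂_map] at h3
    exact h3
  exact core P hm.ne_zero _ _ (hinjΩ.comp hinjK) θ θ' (fun h => hne (Subtype.ext h)) (hr θ hθ)
    (hr θ' hθ')

end Pool.Agent.K3h79.HP
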