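import Pool.Agent.K3h46.HP.Stm4
import Pool.Agent.K3h91.HP.Ptr

/-!
# Gluing in a permanent with different rows (brick ROW of project HP2, helper46; after
`K3h91/HP/Ptr.lean`)
-/

set_option autoImplicit false
set_option linter.all false

open Finset

namespace Pool.Agent.K3h79.HP

open Pool.Agent.K3h46.HP Pool.Agent.K3h91.HP

variable (X : Powers)

theorem push_loop' (w : X.A 2) {n : ℕ} (x : X.A n) :
    X.push n (X.pull Fin.castSucc x * X.edge w (Fin.last n) (Fin.last n)) =
      x * X.pull (Fin.elim0 : Fin 0 → Fin n) (X.tr w) := by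
  rw [X.projection]
  have e : X.edge w (Fin.last n) (Fin.last n) =
      X.pull (extend (Fin.elim0 : Fin 0 → Fin n)) (X.pull ![0, 0] w) := by
    unfold Powers.edge
    rw [X.pull_comp]
    congr 1
    congr 1
    funext a
    fin_cases a <;> rfl
  rw [e, X.base_change]
  rfl

theorem push_compose' (w w' : X.A 2) {n : ℕ} (x : X.A n) (u v : Fin n) :
    X.push n (X.pull Fin.castSucc x * (X.edge w u.castSucc (Fin.last n) *
      X.edge w' (Fin.last n) v.castSucc)) = x * X.edge (X.comp w w') u v := by
  rw [X.projection]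
  congr 1
  have e : X.edge w u.castSucc (Fin.last n) * X.edge w' (Fin.last n) v.castSucc =
      X.pull (extend ![u, v]) (X.pull ![0, 2] w * X.pull ![2, 1] w') := by
    unfold Powers.edge
    rw [map_mul, X.pull_comp, X.pull_comp]
    congr 1
    · congr 1
      congr 1
      funext a
      fin_cases a <;> rfl
    · congr 1
      congr 1
      funext a
      fin_cases a <;> rfl
  rw [e, X.base_change]
  rfl

theorem row_none {N : ℕ} (a : Fin (N + 1) → X.A 2) (τ : Equiv.Perm (Fin N)) :
    X.push (N + N) (∏ i : Fin (N + 1),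
        X.edge (a i) (gluePerm N (Fin.castAdd (N + 1) i))
          (gluePerm N (Fin.natAdd (N + 1) (Φ N (none, τ) i)))) =
      X.pull (Fin.elim0 : Fin 0 → Fin (N + N)) (X.tr (a (Fin.last N))) *
        ∏ i : Fin N, X.edge (a i.castSucc) (Fin.castAdd N i) (Fin.natAdd N (τ i)) := by
  rw [Fin.prod_univ_castSucc, gl_last, Φ_last, finSuccEquivLast_symm_none, gr_last]
  have e3 : ∏ i : Fin N, X.edge (a i.castSucc) (gluePerm N (Fin.castAdd (N + 1) i.castSucc))
      (gluePerm N (Fin.natAdd (N + 1) (Φ N (none, τ) i.castSucc))) =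
      X.pull Fin.castSucc
        (∏ i : Fin N, X.edge (a i.castSucc) (Fin.castAdd N i) (Fin.natAdd N (τ i))) := by
    rw [map_prod]
    refine Finset.prod_congr rfl fun i _ => ?_
    rw [gl_cast, Φ_none, gr_cast, pull_edge]
  rw [e3, push_loop', mul_comm]

theorem row_some {N : ℕ} (a : Fin (N + 1) → X.A 2) (τ : Equiv.Perm (Fin N)) (v : Fin N) :
    X.push (N + N) (∏ i : Fin (N + 1),
        X.edge (a i) (gluePerm N (Fin.castAdd (N + 1) i))
          (gluePerm N (Fin.natAdd (N + 1) (Φ N (some v, τ) i)))) =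
      ∏ i : Fin N, X.edge (Function.update (fun i : Fin N => a i.castSucc) (τ.symm v)
        (X.comp (a (τ.symm v).castSucc) (a (Fin.last N))) i) (Fin.castAdd N i)
          (Fin.natAdd N (τ i)) := by
  rw [Fin.prod_univ_castSucc, gl_last, Φ_last, finSuccEquivLast_symm_some, gr_cast]
  obtain ⟨u, hu⟩ : ∃ u, u = τ.symm v := ⟨_, rfl⟩
  rw [← hu]
  have huv : τ u = v := by rw [hu, Equiv.apply_symm_apply]
  have e3 : ∏ i : Fin N, X.edge (a i.castSucc) (gluePerm N (Fin.castAdd (N + 1) i.castSucc))
      (gluePerm N (Fin.natAdd (N + 1) (Φ N (some v, τ) i.castSucc))) =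
      X.edge (a u.castSucc) (Fin.castAdd N u).castSucc (Fin.last (N + N)) * X.pull Fin.castSucc
        (∏ i ∈ univ.erase u, X.edge (a i.castSucc) (Fin.castAdd N i) (Fin.natAdd N (τ i))) := by
    rw [← Finset.mul_prod_erase univ _ (Finset.mem_univ u), map_prod]
    congr 1
    · rw [gl_cast, Φ_some, if_pos huv, gr_last]
    · refine Finset.prod_congr rfl fun i hi => ?_
      have hiu : τ i ≠ v := by
        intro h1
        apply Finset.ne_of_mem_erase hi
        rw [hu, ← h1, Equiv.symm_apply_apply]
      rw [gl_cast, Φ_some, if_neg hiu, gr_cast, pull_edge]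
  rw [e3]
  have e4 : X.edge (a u.castSucc) (Fin.castAdd N u).castSucc (Fin.last (N + N)) *
        X.pull Fin.castSucc
          (∏ i ∈ univ.erase u, X.edge (a i.castSucc) (Fin.castAdd N i) (Fin.natAdd N (τ i))) *
        X.edge (a (Fin.last N)) (Fin.last (N + N)) (Fin.natAdd N v).castSucc =
      X.pull Fin.castSucc
        (∏ i ∈ univ.erase u, X.edge (a i.castSucc) (Fin.castAdd N i) (Fin.natAdd N (τ i))) *
      (X.edge (a u.castSucc) (Fin.castAdd N u).castSucc (Fin.last (N + N)) *
        X.edge (a (Fin.last N)) (Fin.last (N + N)) (Fin.natAdd N v).castSucc) := by ring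
  rw [e4, push_compose', ← Finset.mul_prod_erase univ _ (Finset.mem_univ u), huv, mul_comm]
  congr 1
  · rw [Function.update_self]
  · refine Finset.prod_congr rfl fun i hi => ?_
    rw [Function.update_of_ne (Finset.ne_of_mem_erase hi)]

theorem t_Row : StmRow := by
  intro X N a
  have e1 : X.pull (gluePerm N) (X.rowPer a) =
      ∑ x : Option (Fin N) × Equiv.Perm (Fin N), ∏ i : Fin (N + 1),
        X.edge (a i) (gluePerm N (Fin.castAdd (N + 1) i))
          (gluePerm N (Fin.natAdd (N + 1) (Φ N x i))) := by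
    unfold Powers.rowPer
    rw [map_sum, ← Equiv.sum_comp (Φ N)]
    refine Finset.sum_congr rfl fun x _ => ?_
    rw [map_prod]
    exact Finset.prod_congr rfl fun i _ => pull_edge X _ _ _ _
  rw [e1, map_sum, Fintype.sum_prod_type, Fintype.sum_option]
  congr 1
  · unfold Powers.rowPer
    rw [Finset.mul_sum]
    exact Finset.sum_congr rfl fun τ _ => row_none X a τ
  · unfold Powers.rowPer
    rw [Finset.sum_comm]
    rw [Finset.sum_comm (s := (univ : Finset (Fin N))) (t := (univ : Finset (Equiv.Perm (Fin N))))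
      (f := fun u τ => ∏ i : Fin N, X.edge (Function.update (fun i : Fin N => a i.castSucc) u
        (X.comp (a u.castSucc) (a (Fin.last N))) i) (Fin.castAdd N i) (Fin.natAdd N (τ i)))]
    refine Finset.sum_congr rfl fun τ _ => ?_
    conv_rhs => rw [← Equiv.sum_comp τ.symm]
    exact Finset.sum_congr rfl fun v _ => row_some X a τ v

end Pool.Agent.K3h79.HP
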